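import Pool.Agent.H754Z.TA.Str

set_option autoImplicit false

namespace Pool.Agent.H754Z.TA

open MeasureTheory Filter Topology Pointwise

universe u v

namespace P10

theorem norm_half_le (z : ℂ) (hz : ‖z‖ ≤ 1) : ‖(z + z ^ 2) / 2‖ ≤ 1 - (1 - z.re) / 4 := by
  have hre : |z.re| ≤ 1 := (Complex.abs_re_le_norm z).trans hz
  have hre' := abs_le.1 hre
  have h1 : ‖(z + z ^ 2) / 2‖ ≤ ‖1 + z‖ / 2 := by
    have : (z + z ^ 2) / 2 = z * (1 + z) / 2 := by ring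
    rw [this, norm_div, norm_mul, Complex.norm_ofNat]
    have := norm_nonneg (1 + z)
    have : ‖z‖ * ‖1 + z‖ ≤ ‖1 + z‖ := by nlinarith
    linarith
  have h2 : ‖1 + z‖ ^ 2 ≤ (2 - (1 - z.re) / 2) ^ 2 := by
    have e1 : ‖1 + z‖ ^ 2 = (1 + z.re) ^ 2 + z.im ^ 2 := by
      rw [Complex.sq_norm, Complex.normSq_apply]
      simp
      ring
    have e2 : ‖z‖ ^ 2 = z.re ^ 2 + z.im ^ 2 := by
      rw [Complex.sq_norm, Complex.normSq_apply]
      ring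
    have e3 : ‖z‖ ^ 2 ≤ 1 := by nlinarith [norm_nonneg z]
    nlinarith [sq_nonneg (1 - z.re)]
  have h3 : ‖1 + z‖ ≤ 2 - (1 - z.re) / 2 :=
    (pow_le_pow_iff_left₀ (norm_nonneg _) (by linarith) two_ne_zero).1 h2
  linarith

theorem norm_half_le_one (z : ℂ) (hz : ‖z‖ ≤ 1) : ‖(z + z ^ 2) / 2‖ ≤ 1 := by
  have := norm_half_le z hz
  have hre := abs_le.1 ((Complex.abs_re_le_norm z).trans hz)
  linarith

theorem norm_half_lt_one (z : ℂ) (hz : ‖z‖ ≤ 1) (h : z ≠ 1) : ‖(z + z ^ 2) / 2‖ < 1 := by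
  have h1 := norm_half_le z hz
  have hre := abs_le.1 ((Complex.abs_re_le_norm z).trans hz)
  have : z.re < 1 := by
    by_contra hc
    have e : z.re = 1 := le_antisymm hre.2 (not_lt.1 hc)
    have e2 : ‖z‖ ^ 2 = z.re ^ 2 + z.im ^ 2 := by
      rw [Complex.sq_norm, Complex.normSq_apply]
      ring
    have e3 : ‖z‖ ^ 2 ≤ 1 := by nlinarith [norm_nonneg z]
    have : z.im = 0 := by nlinarith [sq_nonneg z.im]
    exact h (Complex.ext (by simpa using e) (by simpa using this))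
  linarith

theorem sub_norm_le (z : ℂ) (hz : ‖z‖ ≤ 1) (η : ℝ) (hη0 : 0 ≤ η) (hη : η ≤ 1)
    (hre : 1 / 2 ≤ z.re) (him : |z.im| ≤ η * (1 - z.re)) :
    ‖(z + z ^ 2) / 2 - (‖(z + z ^ 2) / 2‖ : ℂ)‖ ≤ 12 * η * (1 - ‖(z + z ^ 2) / 2‖) := by
  set w := (z + z ^ 2) / 2 with hw
  have hre' := abs_le.1 ((Complex.abs_re_le_norm z).trans hz)
  have hwre : w.re = (z.re + z.re ^ 2 - z.im ^ 2) / 2 := by
    simp [hw, sq]
    ring
  have hwim : w.im = z.im * (1 + 2 * z.re) / 2 := by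
    simp [hw, sq]
    ring
  have him2 : |z.im| ≤ 1 / 2 := him.trans (by nlinarith)
  have him3 : z.im ^ 2 ≤ 1 / 4 := by
    have := abs_le.1 him2
    nlinarith
  have h0 : 0 ≤ w.re := by
    rw [hwre]
    nlinarith
  have h1 : |w.im| ≤ 3 / 2 * |z.im| := by
    rw [hwim, abs_div, abs_mul, abs_of_pos (show (0 : ℝ) < 1 + 2 * z.re by linarith)]
    have := abs_nonneg z.im
    rw [abs_two]
    nlinarith
  have h2 : ‖w‖ ≤ w.re + |w.im| := by
    have := Complex.norm_le_abs_re_add_abs_im w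
    rwa [abs_of_nonneg h0] at this
  have h3 : w.re ≤ ‖w‖ := Complex.re_le_norm w
  have h4 : ‖w - (‖w‖ : ℂ)‖ ≤ 2 * |w.im| := by
    have := Complex.norm_le_abs_re_add_abs_im (w - (‖w‖ : ℂ))
    simp only [Complex.sub_re, Complex.ofReal_re, Complex.sub_im, Complex.ofReal_im,
      sub_zero] at this
    rw [abs_of_nonpos (by linarith)] at this
    linarith
  have h5 := norm_half_le z hz
  rw [← hw] at h5
  have h6 : η * (1 - z.re) ≤ η * (4 * (1 - ‖w‖)) := mul_le_mul_of_nonneg_left (by linarith) hη0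
  linarith

theorem pow_sub_pow (w : ℂ) (n : ℕ) :
    ‖w ^ (n + 1) - (‖w‖ : ℂ) ^ (n + 1)‖ ≤ (n + 1) * ‖w‖ ^ n * ‖w - (‖w‖ : ℂ)‖ := by
  induction n with
  | zero => simp
  | succ n ih =>
    have e : w ^ (n + 1 + 1) - (‖w‖ : ℂ) ^ (n + 1 + 1) =
        w * (w ^ (n + 1) - (‖w‖ : ℂ) ^ (n + 1)) + (‖w‖ : ℂ) ^ (n + 1) * (w - (‖w‖ : ℂ)) := by ring
    rw [e]
    refine (norm_add_le _ _).trans ?_
    rw [norm_mul, norm_mul, norm_pow, Complex.norm_real, norm_norm]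
    have := mul_le_mul_of_nonneg_left ih (norm_nonneg w)
    push_cast
    calc _ ≤ ‖w‖ * ((n + 1) * ‖w‖ ^ n * ‖w - (‖w‖ : ℂ)‖) + ‖w‖ ^ (n + 1) * ‖w - (‖w‖ : ℂ)‖ := by
          linarith
      _ = _ := by ring

theorem geom_le (s : ℝ) (h0 : 0 ≤ s) (h1 : s ≤ 1) (n : ℕ) :
    (n + 1) * (1 - s) * s ^ n ≤ 1 - s ^ (n + 1) := by
  induction n with
  | zero => simp
  | succ n ih =>
    have h2 : 0 ≤ s ^ (n + 1) := pow_nonneg h0 _
    have h3 : s ^ (n + 1) ≤ s ^ n := pow_le_pow_of_le_one h0 h1 (Nat.le_succ n)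
    have h4 : (n + 1 : ℝ) * (1 - s) * s ^ (n + 1) ≤ (n + 1) * (1 - s) * s ^ n :=
      mul_le_mul_of_nonneg_left h3 (mul_nonneg (by positivity) (by linarith))
    push_cast
    have e : s ^ (n + 1 + 1) = s ^ (n + 1) * s := pow_succ _ _
    rw [e]
    nlinarith

theorem pow_close (w : ℂ) (hw : ‖w‖ ≤ 1) (η : ℝ) (hη : 0 ≤ η)
    (h : ‖w - (‖w‖ : ℂ)‖ ≤ 12 * η * (1 - ‖w‖)) (m : ℕ) (hm : 0 < m) :
    ‖w ^ (2 * m) - (‖w‖ : ℂ) ^ (2 * m)‖ ≤ 24 * η * ‖w‖ ^ m := by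
  obtain ⟨j, rfl⟩ : ∃ j, m = j + 1 := ⟨m - 1, by omega⟩
  have h1 := pow_sub_pow w (2 * j + 1)
  have e : 2 * (j + 1) = 2 * j + 1 + 1 := by ring
  rw [e]
  refine h1.trans ?_
  have h2 := geom_le ‖w‖ (norm_nonneg w) hw j
  have h3 : 0 ≤ ‖w‖ ^ (j + 1) := by positivity
  have h4 : (j + 1 : ℝ) * (1 - ‖w‖) * ‖w‖ ^ j ≤ 1 := by linarith
  calc ((2 * j + 1 : ℕ) + 1 : ℝ) * ‖w‖ ^ (2 * j + 1) * ‖w - (‖w‖ : ℂ)‖
      ≤ ((2 * j + 1 : ℕ) + 1 : ℝ) * ‖w‖ ^ (2 * j + 1) * (12 * η * (1 - ‖w‖)) :=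
        mul_le_mul_of_nonneg_left h (by positivity)
    _ = 24 * η * ‖w‖ ^ (j + 1) * ((j + 1 : ℝ) * (1 - ‖w‖) * ‖w‖ ^ j) := by
        push_cast
        ring
    _ ≤ 24 * η * ‖w‖ ^ (j + 1) * 1 := mul_le_mul_of_nonneg_left h4 (by positivity)
    _ = _ := mul_one _

theorem lower_pow (z : ℂ) (hz : ‖z‖ ≤ 1) (k : ℕ) (h : ‖z - 1‖ ≤ 1 / 2 ^ (k + 1)) :
    1 / 4 ≤ ‖(z + z ^ 2) / 2‖ ^ (2 ^ k) := by
  have h1 : ‖(z + z ^ 2) / 2 - 1‖ ≤ 3 / 2 * ‖z - 1‖ := by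
    have e : (z + z ^ 2) / 2 - 1 = (z - 1) * (z + 2) / 2 := by ring
    rw [e, norm_div, norm_mul, Complex.norm_ofNat]
    have : ‖z + 2‖ ≤ 3 := by
      refine (norm_add_le _ _).trans ?_
      rw [Complex.norm_ofNat]
      linarith
    have := norm_nonneg (z - 1)
    nlinarith
  have h2 : 1 - ‖(z + z ^ 2) / 2 - 1‖ ≤ ‖(z + z ^ 2) / 2‖ := by
    have := norm_sub_norm_le (1 : ℂ) ((z + z ^ 2) / 2)
    rw [norm_one, norm_sub_rev] at this
    linarith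
  have hp : (0 : ℝ) < 2 ^ k := by positivity
  have hp1 : (1 : ℝ) ≤ 2 ^ k := one_le_pow₀ (by norm_num)
  have h3 : 1 + (-(3 / 4) / 2 ^ k) ≤ ‖(z + z ^ 2) / 2‖ := by
    have : (3 / 2 : ℝ) * (1 / 2 ^ (k + 1)) = (3 / 4) / 2 ^ k := by
      field_simp
      ring
    have h' : -(3 / 4 : ℝ) / 2 ^ k = -((3 / 4) / 2 ^ k) := by ring
    nlinarith
  have h4 : (3 / 4 : ℝ) / 2 ^ k ≤ 3 / 4 := div_le_self (by norm_num) hp1
  have h' : -(3 / 4 : ℝ) / 2 ^ k = -((3 / 4) / 2 ^ k) := by ring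
  have h5 := one_add_mul_le_pow (a := -(3 / 4 : ℝ) / 2 ^ k) (by linarith) (2 ^ k)
  have h6 := pow_le_pow_left₀ (by linarith) h3 (2 ^ k)
  have e : ((2 ^ k : ℕ) : ℝ) * (-(3 / 4 : ℝ) / 2 ^ k) = -(3 / 4) := by
    push_cast
    field_simp
  rw [e] at h5
  linarith

end P10

open P10 in
theorem final_integral {G : Type u} [Group G] [TopologicalSpace G] [IsTopologicalGroup G]
    [LocallyCompactSpace G] [T2Space G] [MeasurableSpace G] [BorelSpace G] (μ : Measure G)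
    [μ.IsHaarMeasure] (φ ψ : G → ℂ) (hφ : Continuous φ) (hφc : HasCompactSupport φ)
    (hψ : Continuous ψ) (hle : ∀ x, ‖φ x‖ ≤ 1) (h1 : φ 1 = 1)
    (hinv : ∀ k x, φ k = 1 → φ (k * x) = φ x)
    (hψ1 : ∀ x, φ x = 1 → ‖ψ x - 1‖ ≤ 1 / 4)
    (him : ∀ η > 0, ∀ᶠ x in 𝓝 (1 : G), |(φ x).im| ≤ η * (1 - (φ x).re))
    (hlow : ∃ c l : ℝ, 0 < c ∧ 0 < l ∧ ∀ k : ℕ, c * l ^ k ≤ μ.real {x | ‖φ x - 1‖ ≤ 1 / 2 ^ (k + 1)}) :
    ∃ n : ℕ, 0 < n ∧ ∫ x, ((φ x + φ x ^ 2) / 2) ^ n * ψ x ∂μ ≠ 0 := by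
  obtain ⟨c, l, hc, hl, hlow⟩ := hlow
  by_contra hall
  push Not at hall
  set η : ℝ := min 1 (l / 120) with hηdef
  have hη0 : 0 < η := lt_min one_pos (by positivity)
  have hη1 : η ≤ 1 := min_le_left _ _
  have hηl : η ≤ l / 120 := min_le_right _ _
  let Φ : G → ℂ := fun x => (φ x + φ x ^ 2) / 2
  have hΦ : Continuous Φ := by fun_prop
  have hΦ0 : ∀ x, φ x = 0 → Φ x = 0 := fun x hx => by simp [Φ, hx]
  have hΦle : ∀ x, ‖Φ x‖ ≤ 1 := fun x => norm_half_le_one _ (hle x)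
  let U : Set G := interior {x | 1 / 2 ≤ (φ x).re ∧ |(φ x).im| ≤ η * (1 - (φ x).re) ∧
    ‖ψ x - 1‖ ≤ 1 / 3}
  have hKU : ∀ k, φ k = 1 → k ∈ U := by
    intro k hk
    rw [mem_interior_iff_mem_nhds]
    have a1 : ∀ᶠ x in 𝓝 k, 1 / 2 < (φ x).re :=
      (isOpen_lt continuous_const (Complex.continuous_re.comp hφ)).mem_nhds
        (by simp [hk]; norm_num)
    have a2 : ∀ᶠ x in 𝓝 k, |(φ (k⁻¹ * x)).im| ≤ η * (1 - (φ (k⁻¹ * x)).re) := by
      have : Tendsto (fun x => k⁻¹ * x) (𝓝 k) (𝓝 1) := by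
        have := (continuous_mul_left k⁻¹).tendsto k
        rwa [inv_mul_cancel] at this
      exact this.eventually (him η hη0)
    have a3 : ∀ᶠ x in 𝓝 k, ‖ψ x - 1‖ < 1 / 3 :=
      (isOpen_lt (by fun_prop) continuous_const).mem_nhds
        (lt_of_le_of_lt (hψ1 k hk) (by norm_num))
    filter_upwards [a1, a2, a3] with x b1 b2 b3
    have e : φ (k⁻¹ * x) = φ x := by
      rw [← hinv k _ hk, mul_inv_cancel_left]
    rw [e] at b2
    exact ⟨b1.le, b2, b3.le⟩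
  obtain ⟨θ, hθ0, hθ1, hθ⟩ : ∃ θ : ℝ, 0 ≤ θ ∧ θ < 1 ∧ ∀ x, x ∉ U → ‖Φ x‖ ≤ θ := by
    have hC : IsCompact (tsupport φ \ U) := IsCompact.diff hφc isOpen_interior
    have hout : ∀ x, x ∉ tsupport φ → ‖Φ x‖ = 0 := fun x hx => by
      rw [hΦ0 x (image_eq_zero_of_notMem_tsupport hx), norm_zero]
    rcases (tsupport φ \ U).eq_empty_or_nonempty with h | h
    · refine ⟨0, le_rfl, one_pos, fun x hx => (hout x fun hx' => ?_).le⟩
      exact (Set.eq_empty_iff_forall_notMem.1 h) x ⟨hx', hx⟩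
    · obtain ⟨x0, hx0, hmax⟩ := hC.exists_isMaxOn h hΦ.norm.continuousOn
      refine ⟨‖Φ x0‖, norm_nonneg _, norm_half_lt_one _ (hle x0) fun h' => hx0.2 (hKU x0 h'), ?_⟩
      intro x hx
      by_cases hx' : x ∈ tsupport φ
      · exact hmax ⟨hx', hx⟩
      · rw [hout x hx']
        exact norm_nonneg _
  obtain ⟨R, hR⟩ := (show IsCompact (tsupport φ) from hφc).exists_bound_of_continuousOn
    hψ.continuousOn
  have hsupp : ∀ {E : Type} [Zero E] (g : G → E), (∀ x, φ x = 0 → g x = 0) →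
      HasCompactSupport g := fun g hg =>
    hφc.mono fun x hx => fun h => hx (hg x h)
  have hint : ∀ n, 0 < n → Integrable (fun x => ‖Φ x‖ ^ n) μ := fun n hn =>
    (hΦ.norm.pow n).integrable_of_hasCompactSupport
      (hsupp _ fun x hx => by simp [hΦ0 x hx, hn.ne'])
  let F : ℕ → ℝ := fun n => ∫ x, ‖Φ x‖ ^ n ∂μ
  have hF0 : ∀ n, 0 ≤ F n := fun n => integral_nonneg fun x => by positivity
  have hstep : ∀ m, 0 < m → (|R| + 1) * θ ^ m ≤ 8 * η → F (2 * m) ≤ l / 2 * F m := by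
    intro m hm hθm
    have hm2 : 0 < 2 * m := by omega
    have hpt : ∀ x, ‖Φ x ^ (2 * m) * ψ x - ((‖Φ x‖ ^ (2 * m) : ℝ) : ℂ)‖ ≤
        40 * η * ‖Φ x‖ ^ m + 1 / 3 * ‖Φ x‖ ^ (2 * m) := by
      intro x
      have p1 : 0 ≤ ‖Φ x‖ ^ m := by positivity
      have p2 : 0 ≤ ‖Φ x‖ ^ (2 * m) := by positivity
      by_cases hx : x ∈ U
      · obtain ⟨b1, b2, b3⟩ := interior_subset hx
        have c1 := pow_close (Φ x) (hΦle x) η hη0.le
          (sub_norm_le (φ x) (hle x) η hη0.le hη1 b1 b2) m hm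
        have c2 : ‖ψ x‖ ≤ 4 / 3 := by
          have := norm_sub_norm_le (ψ x) 1
          rw [norm_one] at this
          linarith
        have e : Φ x ^ (2 * m) * ψ x - ((‖Φ x‖ ^ (2 * m) : ℝ) : ℂ) =
            (Φ x ^ (2 * m) - (‖Φ x‖ : ℂ) ^ (2 * m)) * ψ x +
              (‖Φ x‖ : ℂ) ^ (2 * m) * (ψ x - 1) := by
          push_cast
          ring
        rw [e]
        refine (norm_add_le _ _).trans ?_
        rw [norm_mul, norm_mul, norm_pow, Complex.norm_real, norm_norm]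
        have d1 := mul_le_mul c1 c2 (norm_nonneg _) (by positivity)
        have d2 := mul_le_mul_of_nonneg_left b3 p2
        nlinarith [mul_nonneg hη0.le p1]
      · by_cases hx' : x ∈ tsupport φ
        · have c1 : ‖ψ x‖ ≤ |R| := (hR x hx').trans (le_abs_self R)
          have c2 : ‖Φ x‖ ^ m ≤ θ ^ m := pow_le_pow_left₀ (norm_nonneg _) (hθ x hx) m
          refine (norm_sub_le _ _).trans ?_
          rw [norm_mul, norm_pow, Complex.norm_real, norm_pow, norm_norm]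
          have e : ‖Φ x‖ ^ (2 * m) = ‖Φ x‖ ^ m * ‖Φ x‖ ^ m := by ring
          have d1 : ‖Φ x‖ ^ (2 * m) * ‖ψ x‖ + ‖Φ x‖ ^ (2 * m) ≤
              ((|R| + 1) * θ ^ m) * ‖Φ x‖ ^ m := by
            calc _ = ((‖ψ x‖ + 1) * ‖Φ x‖ ^ m) * ‖Φ x‖ ^ m := by rw [e]; ring
              _ ≤ _ := mul_le_mul_of_nonneg_right
                (mul_le_mul (by linarith) c2 p1 (by positivity)) p1
          have d2 := mul_le_mul_of_nonneg_right hθm p1
          nlinarith [mul_nonneg hη0.le p1]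
        · simp [hΦ0 x (image_eq_zero_of_notMem_tsupport hx'), hm.ne']
    have i1 : Integrable (fun x => Φ x ^ (2 * m) * ψ x) μ :=
      ((hΦ.pow _).mul hψ).integrable_of_hasCompactSupport
        (hsupp _ fun x hx => by simp [hΦ0 x hx, hm.ne'])
    have i2 : Integrable (fun x => ((‖Φ x‖ ^ (2 * m) : ℝ) : ℂ)) μ := (hint _ hm2).ofReal
    have e1 : ∫ x, (Φ x ^ (2 * m) * ψ x - ((‖Φ x‖ ^ (2 * m) : ℝ) : ℂ)) ∂μ = -(F (2 * m) : ℂ) := by
      rw [integral_sub i1 i2, hall _ hm2, integral_complex_ofReal, zero_sub]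
    have e2 := norm_integral_le_of_norm_le
      (((hint m hm).const_mul (40 * η)).add ((hint _ hm2).const_mul (1 / 3)))
      (Eventually.of_forall hpt)
    rw [e1, norm_neg, Complex.norm_real, Real.norm_of_nonneg (hF0 _)] at e2
    simp only [Pi.add_apply] at e2
    rw [integral_add ((hint m hm).const_mul _) ((hint _ hm2).const_mul _), integral_const_mul,
      integral_const_mul] at e2
    have e3 : F (2 * m) ≤ 40 * η * F m + 1 / 3 * F (2 * m) := e2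
    have := mul_le_mul_of_nonneg_right hηl (hF0 m)
    linarith
  have hlower : ∀ k : ℕ, c * l ^ k / 4 ≤ F (2 ^ k) := by
    intro k
    have hS : IsClosed {x | ‖φ x - 1‖ ≤ 1 / 2 ^ (k + 1)} :=
      isClosed_le (by fun_prop) continuous_const
    have hfin : μ {x | ‖φ x - 1‖ ≤ 1 / 2 ^ (k + 1)} ≠ ⊤ := by
      refine ((measure_mono ?_).trans_lt
        (show IsCompact (tsupport φ) from hφc).measure_lt_top).ne
      intro x hx
      refine subset_tsupport _ fun h0 => ?_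
      have hx : ‖φ x - 1‖ ≤ 1 / 2 ^ (k + 1) := hx
      rw [h0, zero_sub, norm_neg, norm_one] at hx
      have : (1 : ℝ) / 2 ^ (k + 1) < 1 := by
        rw [div_lt_one (by positivity)]
        exact one_lt_pow₀ (by norm_num) (Nat.succ_ne_zero k)
      linarith
    have i := hint (2 ^ k) (by positivity)
    have e1 := setIntegral_ge_of_const_le_real hS.measurableSet hfin
      (fun x hx => lower_pow (φ x) (hle x) k hx) i.integrableOn
    have e2 : ∫ x in {x | ‖φ x - 1‖ ≤ 1 / 2 ^ (k + 1)}, ‖Φ x‖ ^ (2 ^ k) ∂μ ≤ F (2 ^ k) :=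
      setIntegral_le_integral i (Eventually.of_forall fun x => by positivity)
    have := hlow k
    linarith
  obtain ⟨k0, hk0⟩ : ∃ k0 : ℕ, (|R| + 1) * θ ^ k0 ≤ 8 * η := by
    have := (tendsto_pow_atTop_nhds_zero_of_lt_one hθ0 hθ1).const_mul (|R| + 1)
    rw [mul_zero] at this
    exact (this.eventually (ge_mem_nhds (by positivity : (0 : ℝ) < 8 * η))).exists
  have hiter : ∀ j : ℕ, F (2 ^ (k0 + j)) ≤ (l / 2) ^ j * F (2 ^ k0) := by
    intro j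
    induction j with
    | zero => simp
    | succ j ih =>
      have h2 : (|R| + 1) * θ ^ (2 ^ (k0 + j)) ≤ 8 * η := by
        refine le_trans (mul_le_mul_of_nonneg_left (pow_le_pow_of_le_one hθ0 hθ1.le ?_)
          (by positivity)) hk0
        exact (Nat.le_add_right k0 j).trans (Nat.lt_two_pow_self).le
      have h3 := hstep (2 ^ (k0 + j)) (by positivity) h2
      rw [← add_assoc, pow_succ' 2]
      calc _ ≤ l / 2 * F (2 ^ (k0 + j)) := h3
        _ ≤ l / 2 * ((l / 2) ^ j * F (2 ^ k0)) := mul_le_mul_of_nonneg_left ih (by positivity)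
        _ = _ := by ring
  have hfin : ∀ j : ℕ, c * l ^ k0 / 4 ≤ (1 / 2) ^ j * F (2 ^ k0) := by
    intro j
    have h2 := (hlower (k0 + j)).trans (hiter j)
    have hj : 0 < l ^ j := by positivity
    refine le_of_mul_le_mul_left ?_ hj
    calc l ^ j * (c * l ^ k0 / 4) = c * l ^ (k0 + j) / 4 := by ring
      _ ≤ (l / 2) ^ j * F (2 ^ k0) := h2
      _ = _ := by rw [div_eq_mul_one_div, mul_pow]; ring
  have hlim := (tendsto_pow_atTop_nhds_zero_of_lt_one (r := (1 / 2 : ℝ)) (by norm_num)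
    (by norm_num)).mul_const (F (2 ^ k0))
  rw [zero_mul] at hlim
  have := ge_of_tendsto' hlim hfin
  have : 0 < c * l ^ k0 / 4 := by positivity
  linarith

end Pool.Agent.H754Z.TA
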